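import Mathlib
import Pool.Agent.H865.TQ.Glob

/-!
# Split embedding problems and the Hilbert property of twisted linear quotients

Let `k` be a Hilbertian field of characteristic zero. We show that the question Q1 for `k` is
equivalent to a question on the rational points of unirational varieties over `k`, for each
isomorphism class (or any class) `𝒞` of kernels. The following are equivalent:

* `SplitProper`: all finite split embedding problems over `k` with kernel in `𝒞` have proper
  solutions;
* `WeakProper`: all weakly solvable finite embedding problems over `k` with kernel in `𝒞` have
  proper solutions;
* `QuotientsHP`: let `α : G → Gal(L/k)` be a finite embedding problem with kernel in `𝒞`, and let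
  `G` act faithfully and semilinearly, through `α`, on `L^N`. Then all the integral `k`-schemes,
  locally of finite type, with function field `L(x_1, ..., x_N)^G` and with a dense set of
  `k`-points have the Hilbert property. (These schemes are birational to the `k`-forms of the
  quotients `V / H` by `H = ker α`, with any outer action of the Galois group on `H`. They are
  unirational.)
* `SplitQuotientsHP`: for every split problem `α` with kernel in `𝒞` and one such action all the
  integral `k`-schemes, locally of finite type, with function field `L(x_1, ..., x_N)^G` have the
  Hilbert property. (These schemes are birational to the quotients of vector spaces over `k` by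
  linear actions of the finite étale group schemes over `k` with geometric fibre `H`.)

If `𝒞` is closed under subgroups and finite direct powers and `k` is any field of characteristic
zero, then these properties hold for all Hilbertian fields containing `k` if and only if the
question on the Hilbert property has a positive answer over the fields `k(t_1, ..., t_n)`, and if
and only if it has a positive answer for the split problems `α : G → Gal(L/K)`, `K ⊇ k`
Hilbertian, where `G` is perfect and generated by a conjugacy class of involutions.

The definitions are in the files `Pool/Agent/H865/TQ/Defs.lean` and
`Pool/Agent/H865/TQ/Defs2.lean`.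
-/

set_option autoImplicit false

open Pool.Agent.H865.TQ

namespace Pool.Agent.Results.MP_e9d732_al.HilbertPropertyOfQuotients

theorem result :
    -- one Hilbertian field
    (∀ (k : Type) [Field k] [CharZero k], IsHilbertian k →
      ∀ 𝒞 : (H : Type) → [Group H] → Prop, IsoInvariant 𝒞 →
        [SplitProper 𝒞 k, WeakProper 𝒞 k, QuotientsHP 𝒞 k,
          SplitQuotientsHP 𝒞 AnyGroup k].TFAE) ∧
    -- all Hilbertian fields containing a given field
    (∀ (k : Type) [Field k] [CharZero k],
      ∀ 𝒞 : (H : Type) → [Group H] → Prop, ClosedUnder 𝒞 →
        [∀ (K : Type) [Field K] [Algebra k K], IsHilbertian K → SplitProper 𝒞 K,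
          ∀ (K : Type) [Field K] [Algebra k K], IsHilbertian K → QuotientsHP 𝒞 K,
          ∀ n : ℕ, 0 < n → QuotientsHP 𝒞 (FractionRing (MvPolynomial (Fin n) k)),
          ∀ (K : Type) [Field K] [Algebra k K], IsHilbertian K →
            SplitQuotientsHP 𝒞 PerfectInvolutions K,
          ∀ (K : Type) [Field K] [Algebra k K], SplitRegular 𝒞 K].TFAE) :=
  ⟨fun k _ _ hk _ h𝒞 => tfae_one k hk h𝒞, fun k _ _ _ h𝒞 => tfae_all k h𝒞⟩

end Pool.Agent.Results.MP_e9d732_al.HilbertPropertyOfQuotients
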